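import Mathlib
import Pool.Agent.Y201.VL.Geo

/-! # Cubic forms which specialize to the form `x₀² z + Σ yᵢ³` -/

set_option autoImplicit false

namespace Pool.Agent.Y201.VD

open MvPolynomial Pool.Agent.Y201.VL

/-- `F` has a model over a valuation ring of `ℂ` whose reduction is the form `F0` -/
def Spz {n : ℕ} (F : MvPolynomial (Fin (n + 1 + 1)) ℂ) : Prop :=
  ∃ (V : ValuationSubring ℂ) (FV : MvPolynomial (Fin (n + 1 + 1)) V),
    MvPolynomial.map V.subtype FV = F ∧
    MvPolynomial.map (IsLocalRing.residue V) FV = F0 (Res V) n ∧ (6 : Res V) ≠ 0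

/-- a monic model over a valuation ring -/
theorem monic_model {n : ℕ} (hn : 0 < n) (F : MvPolynomial (Fin (n + 1 + 1)) ℂ)
    (hF : F.IsHomogeneous 3)
    (hai : Spz F) :
    ∃ (V : ValuationSubring ℂ) (g : MvPolynomial (Fin (n + 1)) V) (b : ℂ),
      b ≠ 0 ∧ MvPolynomial.map V.subtype g = C b * dh ℂ n F ∧
      MvPolynomial.map (IsLocalRing.residue V) g = f0 (Res V) n ∧ (6 : Res V) ≠ 0 ∧
      (finSuccEquiv V n g).Monic := by
  obtain ⟨V, FV, hFV, hFr, h6⟩ := hai
  have hfV : MvPolynomial.map V.subtype (dh V n FV) = dh ℂ n F := by rw [← dh_map, hFV]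
  have hfr : MvPolynomial.map (IsLocalRing.residue V) (dh V n FV) = f0 (Res V) n := by
    rw [← dh_map, hFr, dh_F0]
  have ha : IsLocalRing.residue V ((dh V n FV).coeff (Finsupp.single 0 3)) = 1 := by
    rw [← coeff_f0 (Res V) hn, ← hfr, coeff_map]
  have hau : IsUnit ((dh V n FV).coeff (Finsupp.single 0 3)) := by
    by_contra h
    have h1 := (IsLocalRing.residue_eq_zero_iff _).mpr ((IsLocalRing.mem_maximalIdeal _).mpr h)
    rw [ha] at h1
    exact one_ne_zero h1
  obtain ⟨b, hb⟩ := hau.exists_left_inv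
  have hbr : IsLocalRing.residue V b = 1 := by
    have h1 := congrArg (IsLocalRing.residue V) hb
    rwa [map_mul, ha, mul_one, map_one] at h1
  have hb0 : (b : ℂ) ≠ 0 := by
    intro h
    have h1 : b = 0 := Subtype.ext h
    rw [h1, map_zero] at hbr
    exact zero_ne_one hbr
  refine ⟨V, C b * dh V n FV, b, hb0, ?_, ?_, h6, ?_⟩
  · rw [map_mul, map_C, hfV]
    rfl
  · rw [map_mul, map_C, hbr, hfr, map_one, one_mul]
  · have htd : (C b * dh V n FV).totalDegree ≤ 3 := by
      refine (totalDegree_mul _ _).trans ?_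
      rw [totalDegree_C, zero_add]
      refine (totalDegree_dh _).trans ?_
      have h1 : FV.IsHomogeneous 3 := by
        intro m hm
        apply hF
        rw [← hFV, coeff_map]
        intro h0
        exact hm (Subtype.ext h0)
      exact h1.totalDegree_le
    obtain ⟨h1, h2⟩ := lead _ htd
    refine Polynomial.monic_of_natDegree_le_of_coeff_eq_one 3 h1 ?_
    rw [h2, coeff_C_mul, hb, map_one]

theorem geo_last {n : ℕ} (hn : 0 < n) (F : MvPolynomial (Fin (n + 1 + 1)) ℂ)
    (hF : F.IsHomogeneous 3)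
    (hai : Spz F) :
    ¬ dh ℂ n F ∣ pderiv (Fin.last n) (dh ℂ n F) := by
  intro hd
  obtain ⟨V, g, b, hb0, hgC, hgr, h6, hmon⟩ := monic_model hn F hF hai
  have h1 : inc V (finSuccEquiv V n g) ∣ inc V (finSuccEquiv V n (pderiv (Fin.last n) g)) := by
    rw [inc_fse, inc_fse, hgC, dvd_fse hb0, ← pderiv_map, hgC, pderiv_C_mul]
    exact Dvd.dvd.mul_left hd _
  have h2 := dvd_of_inc V hmon h1
  have h3 := map_dvd (red V) h2
  rw [red_fse, red_fse, hgr, ← pderiv_map, hgr, pd_last, map_one] at h3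
  have h5 := map_dvd (finSuccEquiv (Res V) n).symm h3
  rw [AlgEquiv.symm_apply_apply, map_one] at h5
  exact not_dvd_one n h5

/-- The second fundamental form of a cubic hypersurface with algebraically independent
coefficients is anisotropic at the generic point. -/
theorem geo {n : ℕ} (hn : 0 < n) (F : MvPolynomial (Fin (n + 1 + 1)) ℂ) (hF : F.IsHomogeneous 3)
    (hai : Spz F)
    (r : Fin n → MvPolynomial (Fin (n + 1)) ℂ)
    (hr : dh ℂ n F ∣ ∑ i, ∑ j, HH (dh ℂ n F) i j * r i * r j) (i0 : Fin n) :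
    dh ℂ n F ∣ r i0 := by
  by_contra hi0
  obtain ⟨V, g, b, hb0, hgC, hgr, h6, hmon⟩ := monic_model hn F hF hai
  have hS : ∀ i j, inc V (finSuccEquiv V n (HH g i j)) =
      finSuccEquiv ℂ n (C b * C b * C b * HH (dh ℂ n F) i j) := by
    intro i j
    rw [inc_fse, ← HH_map, hgC, HH_smul]
  have hw : ∃ i, ¬ inc V (finSuccEquiv V n g) ∣ (fun i => finSuccEquiv ℂ n (r i)) i := by
    refine ⟨i0, fun h => hi0 ?_⟩
    rwa [inc_fse, hgC, dvd_fse hb0] at h
  have hh : inc V (finSuccEquiv V n g) ∣ ∑ i, ∑ j, inc V ((fun i j => finSuccEquiv V n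
      (HH g i j)) i j) * (fun i => finSuccEquiv ℂ n (r i)) i *
      (fun i => finSuccEquiv ℂ n (r i)) j := by
    have h2 : (∑ i, ∑ j, inc V ((fun i j => finSuccEquiv V n
      (HH g i j)) i j) * (fun i => finSuccEquiv ℂ n (r i)) i *
      (fun i => finSuccEquiv ℂ n (r i)) j) =
        finSuccEquiv ℂ n (C b * C b * C b * ∑ i, ∑ j, HH (dh ℂ n F) i j * r i * r j) := by
      rw [map_mul, map_sum, Finset.mul_sum]
      refine Finset.sum_congr rfl fun i _ => ?_
      rw [map_sum, Finset.mul_sum]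
      refine Finset.sum_congr rfl fun j _ => ?_
      simp only [hS, map_mul]
      ring
    rw [h2, inc_fse, hgC, dvd_fse hb0]
    exact Dvd.dvd.mul_left hr _
  obtain ⟨w', ⟨i1, hi1⟩, hw'⟩ := specialize V (finSuccEquiv V n g) hmon
    (fun i j => finSuccEquiv V n (HH g i j)) (fun i => finSuccEquiv ℂ n (r i)) hw hh
  have hS' : ∀ i j, red V (finSuccEquiv V n (HH g i j)) =
      finSuccEquiv (Res V) n (HH (f0 (Res V) n) i j) := by
    intro i j
    rw [red_fse, ← HH_map, hgr]
  have hgg : red V (finSuccEquiv V n g) = finSuccEquiv (Res V) n (f0 (Res V) n) := by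
    rw [red_fse, hgr]
  simp only [hS'] at hw'
  rw [hgg] at hi1 hw'
  have h2 : f0 (Res V) n ∣ ∑ i, ∑ j, HH (f0 (Res V) n) i j *
      (finSuccEquiv (Res V) n).symm (w' i) * (finSuccEquiv (Res V) n).symm (w' j) := by
    have h3 := map_dvd (finSuccEquiv (Res V) n).symm hw'
    simpa only [AlgEquiv.symm_apply_apply, map_sum, map_mul] using h3
  have h3 := aniso_f0 h6 _ h2 i1
  apply hi1
  have h4 := map_dvd (finSuccEquiv (Res V) n) h3
  rwa [AlgEquiv.apply_symm_apply] at h4

end Pool.Agent.Y201.VD
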