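import Mathlib
import Pool.Agent.Y201.VD.Geo

/-! # Invariant divisors in the space of cubic forms -/

set_option autoImplicit false

namespace Pool.Agent.Y201.VD

open MvPolynomial Pool.Agent.Y201.VL

/-- A valuation ring of `ℂ` in which given numbers specialize to rational numbers. -/
theorem exists_valuation' {ι : Type*} (a : ι → ℂ) (c : ι → ℚ)
    (h : ∀ p : MvPolynomial ι ℚ, aeval a p = 0 → aeval c p = 0) :
    ∃ V : ValuationSubring ℂ, (∀ q : ℚ, (q : ℂ) ∈ V) ∧ ∀ i, a i - (c i : ℂ) ∈ V.nonunits := by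
  classical
  let A : Subalgebra ℚ ℂ := (aeval a : MvPolynomial ι ℚ →ₐ[ℚ] ℂ).range
  let ψ : MvPolynomial ι ℚ →ₐ[ℚ] A := (aeval a : MvPolynomial ι ℚ →ₐ[ℚ] ℂ).rangeRestrict
  have hψ : Function.Surjective ψ := AlgHom.rangeRestrict_surjective _
  have hker : ∀ p, ψ p = 0 → (aeval c : MvPolynomial ι ℚ →ₐ[ℚ] ℚ) p = 0 := by
    intro p hp
    exact h p (congrArg Subtype.val hp)
  let φ : A →+* ℚ := (ψ : MvPolynomial ι ℚ →+* A).liftOfSurjective hψ
    ⟨((aeval c : MvPolynomial ι ℚ →ₐ[ℚ] ℚ) : MvPolynomial ι ℚ →+* ℚ), fun p hp => hker p hp⟩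
  have hφ : ∀ p, φ (ψ p) = aeval c p := fun p =>
    RingHom.liftOfRightInverse_comp_apply _ _ _ _ p
  let I : Ideal A.toSubring := RingHom.ker φ
  have hI : I ≠ ⊤ := RingHom.ker_ne_top φ
  obtain ⟨V, hV1, hV2⟩ := Ideal.image_subset_nonunits_valuationSubring (A := A.toSubring) I hI
  refine ⟨V, fun q => hV1 (A.algebraMap_mem q), fun i => hV2 ?_⟩
  refine ⟨ψ (X i - C (c i)), ?_, ?_⟩
  · show φ (ψ (X i - C (c i))) = 0
    rw [hφ]
    simp
  · show aeval a (X i - C (c i) : MvPolynomial ι ℚ) = a i - (c i : ℂ)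
    rw [map_sub, aeval_X, aeval_C]
    rfl

/-- a model of `F` over a valuation ring -/
theorem spz_of {n : ℕ} (F : MvPolynomial (Fin (n + 1 + 1)) ℂ) (hF : F.IsHomogeneous 3)
    (h : ∀ p : MvPolynomial (Ex (Fin (n + 1 + 1)) 3) ℚ,
      aeval (fun m : Ex (Fin (n + 1 + 1)) 3 => F.coeff (m : _ →₀ ℕ)) p = 0 →
      aeval (fun m : Ex (Fin (n + 1 + 1)) 3 => (F0 ℚ n).coeff (m : _ →₀ ℕ)) p = 0) :
    Spz F := by
  classical
  obtain ⟨V, hV1, hV2⟩ := exists_valuation'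
    (fun m : Ex (Fin (n + 1 + 1)) 3 => F.coeff (m : Fin (n + 1 + 1) →₀ ℕ))
    (fun m : Ex (Fin (n + 1 + 1)) 3 => (F0 ℚ n).coeff (m : Fin (n + 1 + 1) →₀ ℕ)) h
  let ρ : ℚ →+* V := (algebraMap ℚ ℂ).codRestrict V hV1
  have hsub : ∀ m : Fin (n + 1 + 1) →₀ ℕ, F.coeff m - ((F0 ℚ n).coeff m : ℚ) ∈ V.nonunits := by
    intro m
    by_cases hm : m.degree = 3
    · exact hV2 ⟨m, hm⟩
    · rw [hom_degree hF hm, hom_degree (F0_hom ℚ n) hm]
      simp
  have hmem : ∀ m, F.coeff m ∈ V := by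
    intro m
    have h1 := V.add_mem _ _ (V.nonunits_le (hsub m)) (hV1 ((F0 ℚ n).coeff m))
    simpa using h1
  have hrange : F ∈ Set.range (MvPolynomial.map (σ := Fin (n + 1 + 1)) V.subtype) := by
    rw [mem_range_map_iff_coeffs_subset]
    rintro x hx
    obtain ⟨e, he, rfl⟩ := mem_coeffs_iff.mp hx
    exact ⟨⟨_, hmem e⟩, rfl⟩
  obtain ⟨FV, hFV⟩ := hrange
  refine ⟨V, FV, hFV, ?_, ?_⟩
  · rw [← F0_map ((IsLocalRing.residue V).comp ρ) n]
    ext m
    rw [coeff_map, coeff_map, RingHom.comp_apply, ← sub_eq_zero, ← map_sub,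
      IsLocalRing.residue_eq_zero_iff, ← ValuationSubring.coe_mem_nonunits_iff]
    have h1 : ((FV.coeff m - ρ ((F0 ℚ n).coeff m) : V) : ℂ) =
        F.coeff m - ((F0 ℚ n).coeff m : ℚ) := by
      rw [← hFV, coeff_map]
      rfl
    rw [h1]
    exact hsub m
  · have h1 : ((IsLocalRing.residue V).comp ρ) 6 ≠ 0 :=
      (_root_.map_ne_zero _).mpr (by norm_num)
    rwa [map_ofNat] at h1

/-- very general members of a hypersurface in the space of cubic forms which contains `F0` -/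
theorem div_general {n : ℕ} (Φ : MvPolynomial (Ex (Fin (n + 1 + 1)) 3) ℂ) (hΦ : Irreducible Φ)
    (h0 : eval (fun m : Ex (Fin (n + 1 + 1)) 3 => (F0 ℂ n).coeff (m : _ →₀ ℕ)) Φ = 0) :
    ∃ P : ℕ → MvPolynomial (Ex (Fin (n + 1 + 1)) 3) ℂ, (∀ k, ¬ Φ ∣ P k) ∧
      ∀ F : MvPolynomial (Fin (n + 1 + 1)) ℂ, F.IsHomogeneous 3 →
        (∀ k, eval (fun m : Ex (Fin (n + 1 + 1)) 3 => F.coeff (m : _ →₀ ℕ)) (P k) ≠ 0) →
        Spz F := by
  classical
  have hne : Nonempty {p : MvPolynomial (Ex (Fin (n + 1 + 1)) 3) ℚ //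
      ¬ Φ ∣ MvPolynomial.map (algebraMap ℚ ℂ) p} :=
    ⟨⟨1, by rw [map_one]; exact fun h => hΦ.not_isUnit (isUnit_of_dvd_one h)⟩⟩
  have : Countable (MvPolynomial (Ex (Fin (n + 1 + 1)) 3) ℚ) := by
    have h0 : Countable (Ex (Fin (n + 1 + 1)) 3) := inferInstance
    rw [← Cardinal.mk_le_aleph0_iff]
    refine (MvPolynomial.cardinalMk_le_max_lift (σ := Ex (Fin (n + 1 + 1)) 3) (R := ℚ)).trans ?_
    simp only [sup_le_iff, Cardinal.lift_le_aleph0, Cardinal.mk_le_aleph0, le_refl, and_self]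
  obtain ⟨s, hs⟩ := exists_surjective_nat {p : MvPolynomial (Ex (Fin (n + 1 + 1)) 3) ℚ //
      ¬ Φ ∣ MvPolynomial.map (algebraMap ℚ ℂ) p}
  refine ⟨fun k => MvPolynomial.map (algebraMap ℚ ℂ) (s k).1, fun k => (s k).2, ?_⟩
  intro F hF hk
  refine spz_of F hF fun p hp => ?_
  have hdvd : Φ ∣ MvPolynomial.map (algebraMap ℚ ℂ) p := by
    by_contra hcon
    obtain ⟨k, hk'⟩ := hs ⟨p, hcon⟩
    apply hk k
    show eval _ (MvPolynomial.map (algebraMap ℚ ℂ) (s k).1) = 0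
    rw [hk', eval_map]
    exact hp
  obtain ⟨B, hB⟩ := hdvd
  have h1 : eval (fun m : Ex (Fin (n + 1 + 1)) 3 => (F0 ℂ n).coeff (m : _ →₀ ℕ))
      (MvPolynomial.map (algebraMap ℚ ℂ) p) = 0 := by
    rw [hB, map_mul, h0, zero_mul]
  rw [eval_map] at h1
  have h2 : (fun m : Ex (Fin (n + 1 + 1)) 3 => (F0 ℂ n).coeff (m : Fin (n + 1 + 1) →₀ ℕ)) =
      fun m : Ex (Fin (n + 1 + 1)) 3 =>
        algebraMap ℚ ℂ ((F0 ℚ n).coeff (m : Fin (n + 1 + 1) →₀ ℕ)) := by
    funext m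
    rw [← F0_map (algebraMap ℚ ℂ) n, coeff_map]
  rw [h2] at h1
  have h3 : algebraMap ℚ ℂ (aeval (fun m : Ex (Fin (n + 1 + 1)) 3 =>
      (F0 ℚ n).coeff (m : _ →₀ ℕ)) p) = 0 := by
    rw [← h1, aeval_def, Algebra.algebraMap_self, eval₂_id]
    exact (eval₂_comp_left (algebraMap ℚ ℂ) (RingHom.id ℚ) _ p).trans (by simp; rfl)
  exact (map_eq_zero _).1 h3

/-- the substitution `x ↦ g x` -/
noncomputable def sub {N : ℕ} (g : Matrix (Fin N) (Fin N) ℂ) (F : MvPolynomial (Fin N) ℂ) :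
    MvPolynomial (Fin N) ℂ := aeval (fun i => ∑ j, C (g i j) * X j) F

/-- the coefficients of a cubic form -/
noncomputable def cf {N : ℕ} (F : MvPolynomial (Fin N) ℂ) : Ex (Fin N) 3 → ℂ :=
  fun m => F.coeff (m : Fin N →₀ ℕ)

theorem sub_diag {N : ℕ} (w : Fin N → ℂ) (i : Fin N) :
    ∑ j, C (Matrix.diagonal w i j) * X j = (C (w i) * X i : MvPolynomial (Fin N) ℂ) := by
  rw [Finset.sum_eq_single i]
  · rw [Matrix.diagonal_apply_eq]
  · intro j _ hj
    rw [Matrix.diagonal_apply_ne _ (Ne.symm hj), C_0, zero_mul]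
  · intro h
    exact absurd (Finset.mem_univ _) h

theorem sub_F0 {n : ℕ} (w : Fin (n + 1 + 1) → ℂ) (t : ℂ)
    (h1 : w 0 ^ 2 * w (Fin.last n).succ = t) (h2 : ∀ i : Fin n, w i.castSucc.succ = t) :
    sub (Matrix.diagonal w) (F0 ℂ n) =
      C t * (X 0 ^ 2 * X (Fin.last n).succ) + C (t ^ 3) * ∑ i : Fin n, X i.castSucc.succ ^ 3 := by
  unfold sub F0
  rw [map_add, map_mul, map_pow, aeval_X, aeval_X, map_sum, sub_diag, sub_diag]
  congr 1
  · rw [← h1, C_mul, C_pow]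
    ring
  · rw [Finset.mul_sum]
    refine Finset.sum_congr rfl fun i _ => ?_
    rw [map_pow, aeval_X, sub_diag, h2, C_pow]
    ring

/-- a polynomial function which is constant along a curve `t a + t³ b` -/
theorem const_curve {ι : Type*} (Φ : MvPolynomial ι ℂ) (hc : constantCoeff Φ = 0) (a b : ι → ℂ)
    (z : ℂ) (h : ∀ t : ℂ, t ≠ 0 → eval (fun m => t * a m + t ^ 3 * b m) Φ = z) : z = 0 := by
  let q : Polynomial ℂ := aeval (fun m => Polynomial.C (a m) * Polynomial.X +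
    Polynomial.C (b m) * Polynomial.X ^ 3) Φ
  have hq : ∀ t, Polynomial.eval t q = eval (fun m => t * a m + t ^ 3 * b m) Φ := by
    intro t
    have h1 : (Polynomial.aeval t : Polynomial ℂ →ₐ[ℂ] ℂ).comp (aeval (fun m =>
        Polynomial.C (a m) * Polynomial.X + Polynomial.C (b m) * Polynomial.X ^ 3)) =
        aeval (fun m => t * a m + t ^ 3 * b m) := by
      apply algHom_ext
      intro m
      rw [AlgHom.comp_apply, aeval_X, aeval_X]
      simp
      ring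
    have h2 : Polynomial.eval t q = Polynomial.aeval t q := by
      rw [Polynomial.coe_aeval_eq_eval]
    rw [h2]
    have h3 := congrArg (fun f => f Φ) h1
    simp only [AlgHom.comp_apply] at h3
    rw [show Polynomial.aeval t q = _ from h3, aeval_def, Algebra.algebraMap_self]
    rfl
  have hq0 : q = Polynomial.C z := by
    apply Polynomial.eq_of_infinite_eval_eq
    refine Set.Infinite.mono (s := {t : ℂ | t ≠ 0}) (fun t ht => ?_) ?_
    · show Polynomial.eval t q = Polynomial.eval t (Polynomial.C _)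
      rw [hq, h t ht, Polynomial.eval_C]
    · exact (Set.finite_singleton (0 : ℂ)).infinite_compl
  have h0 := hq 0
  rw [hq0, Polynomial.eval_C] at h0
  rw [h0]
  have h1 : (fun m => (0 : ℂ) * a m + 0 ^ 3 * b m) = fun _ => 0 := by
    funext m
    ring
  rw [h1]
  have h2 : eval (fun _ => (0 : ℂ)) Φ = constantCoeff Φ := by rw [eval_zero']
  rw [h2, hc]

/-- an invariant without constant term vanishes at `F0` -/
theorem inv_F0 {n : ℕ} (Φ : MvPolynomial (Ex (Fin (n + 1 + 1)) 3) ℂ) (hc : constantCoeff Φ = 0)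
    (hinv : ∀ g : Matrix (Fin (n + 1 + 1)) (Fin (n + 1 + 1)) ℂ, g.det = 1 →
      ∀ F : MvPolynomial (Fin (n + 1 + 1)) ℂ, F.IsHomogeneous 3 →
        eval (cf (sub g F)) Φ = eval (cf F) Φ) :
    eval (cf (F0 ℂ n)) Φ = 0 := by
  classical
  -- the weights
  let w : ℂ → Fin (n + 1 + 1) → ℂ := fun t => Fin.cons (t ^ (n + 1))
    (Fin.snoc (fun _ : Fin n => t) ((t ^ (2 * n + 1))⁻¹))
  have hw0 : ∀ t, w t 0 = t ^ (n + 1) := fun t => rfl
  have hwl : ∀ t, w t (Fin.last n).succ = (t ^ (2 * n + 1))⁻¹ := fun t => by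
    simp only [w, Fin.cons_succ, Fin.snoc_last]
  have hwi : ∀ t (i : Fin n), w t i.castSucc.succ = t := fun t i => by
    simp only [w, Fin.cons_succ, Fin.snoc_castSucc]
  have hdet : ∀ t : ℂ, t ≠ 0 → (Matrix.diagonal (w t)).det = 1 := by
    intro t ht
    rw [Matrix.det_diagonal, Fin.prod_univ_succ, Fin.prod_univ_castSucc, hw0, hwl]
    have : ∀ i : Fin n, w t i.castSucc.succ = t := hwi t
    simp only [this, Finset.prod_const, Finset.card_univ, Fintype.card_fin]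
    field_simp
    ring
  refine const_curve Φ hc (cf (X 0 ^ 2 * X (Fin.last n).succ))
    (cf (∑ i : Fin n, X i.castSucc.succ ^ 3)) _ fun t ht => ?_
  rw [← hinv _ (hdet t ht) (F0 ℂ n) (F0_hom ℂ n), sub_F0 (w t) t ?_ (hwi t)]
  · congr 2
    funext m
    unfold cf
    rw [coeff_add, coeff_C_mul, coeff_C_mul]
  · rw [hw0, hwl]
    field_simp
    ring

end Pool.Agent.Y201.VD
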