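import Mathlib
import Pool.Agent.Y960.C3.Line
import Pool.Agent.Y201.VD.Geo

/-! # Cubic fourfolds which specialize to `x₀² z + Σ yᵢ³` have no family of lines of odd degree -/

set_option autoImplicit false

namespace Pool.Agent.Y201.VD

open MvPolynomial Pool.Agent.TH314.PD Pool.Agent.Y201.C3 Pool.Agent.Y960.C3
open Pool.Agent.Y201.VL (dh res dh_zero dh_succ totalDegree_dh no_contact hom_smul eval_res dh_aeval)

/-- **LINE** -/
theorem line (F : MvPolynomial (Fin 6) ℂ) (hF : F.IsHomogeneous 3) (hF0 : F ≠ 0)
    (hai : Spz (n := 4) F)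
    (hprime : ∀ (a b : ℕ) (A B : MvPolynomial (Fin 6) ℂ), A.IsHomogeneous a →
      B.IsHomogeneous b → F ∣ A * B → F ∣ A ∨ F ∣ B) : LineFree F := by
  classical
  intro M _ _ htr L t ht u w hu hw hFx hodd
  set x : Fin 6 → M := fun i => t * u i + w i with hx
  have hfin : FiniteDimensional (ratioField x) M := FiniteDimensional.of_finrank_pos hodd.pos
  have hnot : ¬ ratioField x ≤ L := by
    intro hle
    apply ht
    have h1 : IsAlgebraic (ratioField x) t := Algebra.IsAlgebraic.isAlgebraic t
    let _ : Algebra (ratioField x) L := (IntermediateField.inclusion hle).toRingHom.toAlgebra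
    have : IsScalarTower (ratioField x) L M := IsScalarTower.of_algebraMap_eq fun _ => rfl
    exact h1.extendScalars (IntermediateField.inclusion hle).toRingHom.injective
  have hxj : ∃ j, x j ≠ 0 := by
    by_contra hcon
    push Not at hcon
    apply hnot
    unfold ratioField
    rw [IntermediateField.adjoin_le_iff]
    rintro _ ⟨a, b, rfl⟩
    rw [hcon a, zero_div]
    exact zero_mem _
  obtain ⟨j, hj⟩ := hxj
  obtain ⟨ζ, hζ⟩ := exists_zeta htr x j hj hfin
  have hker : ∀ (e : ℕ) (H : MvPolynomial (Fin 6) ℂ), H.IsHomogeneous e → aeval x H = 0 →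
      F ∣ H := by
    intro e H hH h0
    refine dom_of_indep (n := 4) hF (by norm_num) hF0 hprime (aeval x)
      (Fin.cons j ζ : Fin 5 → Fin 6) hFx ?_ hH h0
    intro l A hA hA0
    rw [aeval_rename] at hA0
    refine no_form (fun l => x (ζ l) / x j) hζ (x j) hj l A hA ?_
    rw [← hA0]
    congr 2
    funext i
    refine Fin.cases ?_ (fun l => ?_) i
    · rw [Fin.cons_zero, mul_one]
      rfl
    · rw [Fin.cons_succ]
      change x j * (x (ζ l) / x j) = x (ζ l)
      field_simp
  have hx0 : x 0 ≠ 0 := by
    intro h0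
    obtain ⟨B, hB⟩ := hker 1 (X 0) (isHomogeneous_X _ _) (by rw [aeval_X, h0])
    have hB0 : B ≠ 0 := by
      rintro rfl
      rw [mul_zero] at hB
      exact X_ne_zero _ hB
    have h1 := totalDegree_mul_of_isDomain hF0 hB0
    rw [← hB, totalDegree_X, hF.totalDegree hF0] at h1
    omega
  set y : Fin 5 → M := fun k => x k.succ / x 0 with hy
  have hxy : x = fun i => x 0 * (Fin.cases (motive := fun _ => M) 1 y : Fin 6 → M) i := by
    funext i
    refine Fin.cases ?_ (fun l => ?_) i
    · exact (mul_one _).symm
    · change x l.succ = x 0 * (x l.succ / x 0)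
      field_simp
  have hyF : aeval y (dh ℂ 4 F) = 0 := by
    have h1 := hFx
    rw [hxy, hom_smul hF] at h1
    rw [dh_aeval]
    exact (mul_eq_zero.1 h1).resolve_left (pow_ne_zero _ hx0)
  let ψ : (MvPolynomial (Fin 5) ℂ ⧸ Ideal.span {dh ℂ 4 F}) →ₐ[ℂ] M :=
    Ideal.Quotient.liftₐ (Ideal.span {dh ℂ 4 F}) (aeval y) (by
      intro a ha
      rw [Ideal.mem_span_singleton] at ha
      obtain ⟨b, rfl⟩ := ha
      rw [map_mul, hyF, zero_mul])
  have hψ : ∀ p : MvPolynomial (Fin 5) ℂ, ψ (Ideal.Quotient.mk _ p) = aeval y p := fun p => rfl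
  have hψinj : Function.Injective ψ := by
    rw [injective_iff_map_eq_zero]
    intro q hq
    obtain ⟨p, rfl⟩ := Ideal.Quotient.mk_surjective q
    rw [hψ] at hq
    rw [Ideal.Quotient.eq_zero_iff_mem, Ideal.mem_span_singleton]
    obtain ⟨A', hA'h, hA'⟩ := homogenize p
    have h1 : aeval x A' = 0 := by
      rw [hxy, hom_smul hA'h]
      have h2 := hA' y
      have h3 : (Fin.cons 1 y : Fin 6 → M) = (Fin.cases (motive := fun _ => M) 1 y) := rfl
      rw [← h3, h2, hq, mul_zero]
    obtain ⟨B, hB⟩ := hker _ A' hA'h h1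
    refine ⟨dh ℂ 4 B, ?_⟩
    rw [← map_mul, ← hB]
    have h4 := hA' (X : Fin 5 → MvPolynomial (Fin 5) ℂ)
    rw [aeval_X_left_apply] at h4
    exact h4.symm
  have hψr : IntermediateField.adjoin ℂ (Set.range ψ) = ratioField x := by
    apply le_antisymm
    · rw [IntermediateField.adjoin_le_iff]
      rintro _ ⟨q, rfl⟩
      obtain ⟨p, rfl⟩ := Ideal.Quotient.mk_surjective q
      rw [hψ, SetLike.mem_coe]
      induction p using MvPolynomial.induction_on with
      | C a =>
        rw [aeval_C]
        exact (ratioField x).algebraMap_mem a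
      | add f g hf hg =>
        rw [map_add]
        exact add_mem hf hg
      | mul_X f i hf =>
        rw [map_mul, aeval_X]
        exact mul_mem hf (IntermediateField.subset_adjoin _ _ ⟨i.succ, 0, rfl⟩)
    · rw [← ratio_eq x 0 hx0, IntermediateField.adjoin_le_iff]
      rintro _ ⟨i, rfl⟩
      rw [SetLike.mem_coe]
      refine Fin.cases ?_ (fun l => ?_) i
      · simp only [div_self hx0]
        exact one_mem _
      · apply IntermediateField.subset_adjoin
        exact ⟨Ideal.Quotient.mk _ (X l), by rw [hψ, aeval_X]⟩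
  set v : Fin 5 → M := fun k => u k.succ - u 0 * y k with hv
  have hv0 : v ≠ 0 := by
    intro h0
    have h1 : ∀ k, u k.succ = u 0 * y k := fun k => sub_eq_zero.1 (congrFun h0 k)
    apply hnot
    by_cases hu0 : u 0 = 0
    · have h2 : ∀ i, u i = 0 := by
        intro i
        refine Fin.cases hu0 (fun l => ?_) i
        rw [h1, hu0, zero_mul]
      unfold ratioField
      rw [IntermediateField.adjoin_le_iff]
      rintro _ ⟨a, b, rfl⟩
      have h3 : ∀ i, x i = w i := by
        intro i
        rw [hx]
        simp only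
        rw [h2, mul_zero, zero_add]
      rw [h3, h3, SetLike.mem_coe]
      exact div_mem (hw a) (hw b)
    · rw [← ratio_eq x 0 hx0, IntermediateField.adjoin_le_iff]
      rintro _ ⟨i, rfl⟩
      rw [SetLike.mem_coe]
      refine Fin.cases ?_ (fun l => ?_) i
      · simp only [div_self hx0]
        exact one_mem _
      · have h2 : x l.succ / x 0 = u l.succ / u 0 := by
          rw [h1, mul_div_cancel_left₀ _ hu0]
        simp only [h2]
        exact div_mem (hu _) (hu _)
  have hres : res y v (dh ℂ 4 F) = 0 := by
    apply Polynomial.eq_zero_of_infinite_isRoot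
    have hinf : Infinite M :=
      Infinite.of_injective (algebraMap ℂ M) (algebraMap ℂ M).injective
    have h1 : {s : M | s * u 0 ≠ 1}.Infinite := by
      have h2 : {s : M | s * u 0 ≠ 1} = {s : M | s * u 0 = 1}ᶜ := rfl
      rw [h2]
      apply Set.Finite.infinite_compl
      apply Set.Subsingleton.finite
      intro a ha b hb
      have ha' : a * u 0 = 1 := ha
      have hb' : b * u 0 = 1 := hb
      have hu0 : u 0 ≠ 0 := by
        intro h3
        rw [h3, mul_zero] at ha'
        exact zero_ne_one ha'
      exact mul_right_cancel₀ hu0 (ha'.trans hb'.symm)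
    refine h1.mono ?_
    intro s hs
    change (res y v (dh ℂ 4 F)).eval s = 0
    rw [eval_res, dh_aeval]
    have hb : (1 - s * u 0) / x 0 ≠ 0 := div_ne_zero (sub_ne_zero.2 (Ne.symm hs)) hx0
    set b : M := (1 - s * u 0) / x 0 with hbdef
    have h3 : (Fin.cases (motive := fun _ => M) 1 (fun k => y k + v k * s) : Fin 6 → M) =
        fun i => b * (((b * t + s) / b) * u i + w i) := by
      have h4 : ∀ i, b * (((b * t + s) / b) * u i + w i) = b * x i + s * u i := by
        intro i
        have h5 : b * (((b * t + s) / b) * u i + w i) =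
            (b * ((b * t + s) / b)) * u i + b * w i := by ring
        rw [h5, mul_div_cancel₀ _ hb, hx]
        ring
      funext i
      rw [h4]
      have h5 : b * x 0 = 1 - s * u 0 := by
        rw [hbdef, div_mul_cancel₀ _ hx0]
      refine Fin.cases ?_ (fun l => ?_) i
      · change 1 = b * x 0 + s * u 0
        rw [h5]
        ring
      · change y l + v l * s = b * x l.succ + s * u l.succ
        have h6 : x l.succ = x 0 * y l := by
          rw [hy]
          simp only
          field_simp
        rw [h6, hv]
        simp only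
        linear_combination (-(y l)) * h5
    rw [h3, hom_smul hF, line_zero F L t ht u w hu hw hFx, mul_zero]
  exact no_contact _ (geo (by norm_num) F hF hai) (geo_last (by norm_num) F hF hai) ψ hψinj
    (by rw [hψr]; exact hodd) v hv0 (by
      have h1 : (fun j => ψ (Ideal.Quotient.mk _ (X j))) = y := by
        funext k
        rw [hψ, aeval_X]
      rw [h1, hres]
      exact dvd_zero _)

end Pool.Agent.Y201.VD
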