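import Mathlib
import Pool.Agent.TH314.PD.Final
import Pool.Agent.Y201.C3.Main
import Pool.Agent.Y201.VD.Line
import Pool.Agent.Y201.VD.Div

/-! # Parametrizations of degree three and linear parameters for cubics which specialize to `F0` -/

set_option autoImplicit false

namespace Pool.Agent.Y201.VD

open MvPolynomial

open Pool.Agent.Y201.VL in
theorem final {n : ℕ} (F : MvPolynomial (Fin (n + 1 + 1)) ℂ)
    (hF : F.IsHomogeneous 3)
    (key : ∀ (M : Type) [Field M] [Algebra ℂ M]
      (ψ : (MvPolynomial (Fin (n + 1)) ℂ ⧸ Ideal.span {dh ℂ n F}) →ₐ[ℂ] M),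
      Function.Injective ψ →
      Odd (Module.finrank (IntermediateField.adjoin ℂ (Set.range ψ)) M) →
      ∀ v : Fin (n + 1) → M, v ≠ 0 → ¬ (Polynomial.X ^ 3 : Polynomial M) ∣
        res (fun j => ψ (Ideal.Quotient.mk _ (MvPolynomial.X j))) v (dh ℂ n F))
    {L : Type} [Field L] [Algebra ℂ L]
    (ψ : (MvPolynomial (Fin (n + 1)) ℂ ⧸ Ideal.span {dh ℂ n F}) →ₐ[ℂ]
      FractionRing (Polynomial L))
    (hψ : Function.Injective ψ)
    (hodd : Odd (Module.finrank (IntermediateField.adjoin ℂ (Set.range ψ))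
      (FractionRing (Polynomial L))))
    (q : Polynomial L) (g : Fin (n + 1) → Polynomial L) (hq : q ≠ 0) (hq1 : q.natDegree ≤ 1)
    (hg : ∀ j, (g j).natDegree ≤ 1)
    (h : ∀ j, ψ (Ideal.Quotient.mk _ (MvPolynomial.X j)) *
        algebraMap (Polynomial L) (FractionRing (Polynomial L)) q =
      algebraMap (Polynomial L) (FractionRing (Polynomial L)) (g j)) : False := by
  have hx : MvPolynomial.aeval (fun j => ψ (Ideal.Quotient.mk _ (MvPolynomial.X j)))
      (dh ℂ n F) = 0 := by
    have h1 : MvPolynomial.aeval (fun j => ψ (Ideal.Quotient.mk _ (MvPolynomial.X j))) =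
        ψ.comp (Ideal.Quotient.mkₐ ℂ (Ideal.span {dh ℂ n F})) := by
      apply MvPolynomial.algHom_ext
      intro j
      rw [MvPolynomial.aeval_X]
      rfl
    rw [h1, AlgHom.comp_apply]
    have h2 : Ideal.Quotient.mkₐ ℂ (Ideal.span {dh ℂ n F}) (dh ℂ n F) = 0 :=
      Ideal.Quotient.eq_zero_iff_mem.mpr (Ideal.mem_span_singleton_self _)
    rw [h2, map_zero]
  refine key (FractionRing (Polynomial L)) ψ hψ hodd _
    (dir_ne_zero ψ (fun j => Ideal.Quotient.mk _ (MvPolynomial.X j)) ?_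
      hodd q g hq hq1 hg h) ?_
  · have h1 : Set.range (fun j : Fin (n + 1) =>
        (Ideal.Quotient.mk (Ideal.span {dh ℂ n F})) (MvPolynomial.X j)) =
        (Ideal.Quotient.mkₐ ℂ (Ideal.span {dh ℂ n F})) ''
          (Set.range (MvPolynomial.X : Fin (n + 1) → MvPolynomial (Fin (n + 1)) ℂ)) := by
      rw [← Set.range_comp]
      rfl
    rw [h1, Algebra.adjoin_image, MvPolynomial.adjoin_range_X, Algebra.map_top,
      AlgHom.range_eq_top]
    exact Ideal.Quotient.mkₐ_surjective _ _
  · rw [line_of_linear F hF _ hx q g hq hq1 hg h]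
    exact dvd_zero _

theorem prime_of_zero {F : MvPolynomial (Fin 6) ℂ} {R : Type} [CommRing R] [IsDomain R]
    [Algebra ℂ R] (x : Fin 6 → R) (hF : aeval x F = 0)
    (hx : ∀ (e : ℕ) (H : MvPolynomial (Fin 6) ℂ), H.IsHomogeneous e → aeval x H = 0 → F ∣ H) :
    ∀ (a b : ℕ) (A B : MvPolynomial (Fin 6) ℂ), A.IsHomogeneous a → B.IsHomogeneous b →
      F ∣ A * B → F ∣ A ∨ F ∣ B := by
  rintro a b A B hA hB ⟨E, hE⟩
  have h1 : aeval x A * aeval x B = 0 := by
    rw [← map_mul, hE, map_mul, hF, zero_mul]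
  rcases mul_eq_zero.1 h1 with h | h
  · exact Or.inl (hx a A hA h)
  · exact Or.inr (hx b B hB h)

open Pool.Agent.Y201.C3 Pool.Agent.TH314.PD in
theorem part1 (hani : S_ANI) (hcb : S_CB) (hbase : S_BASE)
    {T : Fin 6 → Fin 6 → Fin 6 → ℂ} (hT : SymT T) (hS : SmoothT T) (hN : NoPlaneT T)
    (hsm : ∀ z : Fin (4 + 2) → ℂ, (∀ i, eval z (pderiv i (frm T)) = 0) → z = 0)
    (hai : Spz (n := 4) (frm T))
    (N : ℕ) (G : Fin 6 → MvPolynomial (Fin N) ℂ) (hdeg : ∀ i, (G i).totalDegree ≤ 3)
    (hdom : aeval G (frm T) = 0 ∧ ∀ (e : ℕ) (H : MvPolynomial (Fin 6) ℂ), H.IsHomogeneous e →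
      aeval G H = 0 → frm T ∣ H) : False := by
  have hF := frm_hom T
  have hF0 : frm T ≠ 0 := ne_zero_of_smooth hsm
  have hLF : LineFree (frm T) := line _ hF hF0 hai (prime_of_zero G hdom.1 hdom.2)
  obtain ⟨c, A, h1, h2⟩ := restrict_exists (n := 4) (d := 3) (by norm_num) hF hF0 G hdom.1 hdom.2
  set G' : Fin 6 → MvPolynomial (Fin 4) ℂ := fun i => aeval (Pool.Agent.TH314.PD.sub c A) (G i) with hG'
  have hdeg' : ∀ i, (G' i).totalDegree ≤ 3 := fun i => aeval_sub_deg c A (G i) (hdeg i)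
  obtain ⟨hfd, hb⟩ := bound (n := 4) (d := 3) (k := 3) (by norm_num) (frm T) hF hsm G' hdeg' h1 h2
  let M := FractionRing (MvPolynomial (Fin 4) ℂ)
  let al : MvPolynomial (Fin 4) ℂ →ₐ[ℂ] M := IsScalarTower.toAlgHom ℂ _ M
  have hal : Function.Injective al := IsFractionRing.injective (MvPolynomial (Fin 4) ℂ) M
  set y : Fin 6 → M := fun i => al (G' i) with hy
  have hfd' : FiniteDimensional (ratioField y) M := hfd
  have hb' : Module.finrank (ratioField y) M * (3 * (3 - 1) ^ 4) ≤ (4 + 1) * (3 - 1) ^ 4 := hb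
  have hone : Module.finrank (ratioField y) M = 1 := by
    have h5 : 0 < Module.finrank (ratioField y) M := Module.finrank_pos
    norm_num at hb'
    omega
  have htop : ratioField y = ⊤ := IntermediateField.finrank_eq_one_iff_eq_top.1 hone
  have htr : Algebra.trdeg ℂ M = 4 := by
    have : Algebra.IsAlgebraic (MvPolynomial (Fin 4) ℂ) (FractionRing (MvPolynomial (Fin 4) ℂ)) :=
      (IsFractionRing.comap_isAlgebraic_iff (K := FractionRing (MvPolynomial (Fin 4) ℂ))).2
        inferInstance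
    have h3 := (IsTranscendenceBasis.mvPolynomial (Fin 4) ℂ).algebraMap_comp
      (A := FractionRing (MvPolynomial (Fin 4) ℂ))
    rw [← h3.cardinalMk_eq_trdeg]
    simp
  set s : Fin 5 → M := Fin.cons 1 (fun l => al (X l)) with hs
  have hsal : ∀ H : MvPolynomial (Fin 5) ℂ, aeval s H =
      al (aeval (Fin.cons 1 X : Fin 5 → MvPolynomial (Fin 4) ℂ) H) := by
    intro H
    have h3 : al.comp (aeval (Fin.cons 1 X : Fin 5 → MvPolynomial (Fin 4) ℂ)) = aeval s := by
      apply algHom_ext
      intro i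
      rw [AlgHom.comp_apply, aeval_X, aeval_X, hs]
      refine Fin.cases ?_ (fun l => ?_) i
      · rw [Fin.cons_zero, Fin.cons_zero, map_one]
      · rw [Fin.cons_succ, Fin.cons_succ]
    rw [← h3]
    rfl
  have hs0 : ∀ (e : ℕ) (H : MvPolynomial (Fin 5) ℂ), H.IsHomogeneous e → aeval s H = 0 →
      H = 0 := by
    intro e H hH h
    rw [hsal] at h
    exact generic_zero H hH (hal (by rw [h, map_zero]))
  have hgen : ratioField s = ⊤ := by
    have h3 : ∀ p : MvPolynomial (Fin 4) ℂ, al p ∈ ratioField s := by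
      intro p
      induction p using MvPolynomial.induction_on with
      | C a =>
        have : al (C a) = algebraMap ℂ M a := al.commutes a
        rw [this]
        exact (ratioField s).algebraMap_mem a
      | add f g hf hg =>
        rw [map_add]
        exact add_mem hf hg
      | mul_X f i hf =>
        rw [map_mul]
        refine mul_mem hf (IntermediateField.subset_adjoin _ _ ⟨i.succ, 0, ?_⟩)
        rw [hs, Fin.cons_succ, Fin.cons_zero, div_one]
    rw [eq_top_iff]
    intro z _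
    obtain ⟨a, b, h⟩ := IsFractionRing.div_surjective (A := MvPolynomial (Fin 4) ℂ) z
    rw [← h.2]
    exact div_mem (h3 a) (h3 b)
  choose Gh hGh hGv using fun i => homog3 (G' i) (hdeg' i)
  have hGs : (fun i => aeval s (Gh i)) = y := by
    funext i
    rw [hy]
    simp only
    rw [hsal, hGv, aeval_X_left_apply]
  have hay : ∀ H : MvPolynomial (Fin 6) ℂ, aeval y H = al (aeval G' H) := by
    intro H
    have : (aeval y : MvPolynomial (Fin 6) ℂ →ₐ[ℂ] M) = al.comp (aeval G') := by
      apply algHom_ext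
      intro i
      rw [aeval_X, AlgHom.comp_apply, aeval_X]
    rw [this, AlgHom.comp_apply]
  refine main_hom hcb hani hbase hT hS hN hLF htr s hs0 hgen Gh hGh ?_ ?_ ?_
  · refine hs0 (3 * 3) _ (hF.aeval _ hGh) ?_
    have h2 : (aeval s).comp (aeval Gh) =
        (aeval (fun i => aeval s (Gh i)) : MvPolynomial (Fin 6) ℂ →ₐ[ℂ] M) := by
      apply algHom_ext
      intro i
      rw [AlgHom.comp_apply, aeval_X, aeval_X]
    have h3 : aeval s (aeval Gh (frm T)) = aeval (fun i => aeval s (Gh i)) (frm T) := by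
      rw [← h2]
      rfl
    rw [h3, hGs, hay, h1, map_zero]
  · intro e H hH h
    rw [hGs, hay] at h
    exact h2 e H hH (hal (by rw [h, map_zero]))
  · rw [hGs, htop]

open Pool.Agent.Y201.C3 Pool.Agent.TH314.PD in
theorem part2 (hani : S_ANI) (hcb : S_CB) 
    {T : Fin 6 → Fin 6 → Fin 6 → ℂ} (hT : SymT T) (hS : SmoothT T) (hN : NoPlaneT T)
    (hF0 : frm T ≠ 0)
    (hai : Spz (n := 4) (frm T))
    (M : Type) [Field M] [Algebra ℂ M] (htr : Algebra.trdeg ℂ M = 4)
    (L : IntermediateField ℂ M) (t : M) (ht : Transcendental L t)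
    (lam Q R : Fin 6 → L) (p q : Fin 6 → ℂ) (a b : M)
    (hpq : ∀ c d : ℂ, eval (c • p + d • q) (frm T) = 0)
    (hlam : ∀ i, (lam i : M) = a * algebraMap ℂ M (p i) + b * algebraMap ℂ M (q i))
    (h1 : aeval (fun i => t ^ 2 * (lam i : M) + t * (Q i : M) + (R i : M)) (frm T) = 0)
    (h2 : ∀ (e : ℕ) (H : MvPolynomial (Fin 6) ℂ), H.IsHomogeneous e →
      aeval (fun i => t ^ 2 * (lam i : M) + t * (Q i : M) + (R i : M)) H = 0 → frm T ∣ H)
    (h3 : ratioField (fun i => t ^ 2 * (lam i : M) + t * (Q i : M) + (R i : M)) = ⊤) :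
    False := by
  have hF := frm_hom T
  have hLF : LineFree (frm T) := line _ hF hF0 hai (prime_of_zero _ h1 h2)
  have hpolar : ∀ i j k : Fin 2, Bf T (![p, q] i) (![p, q] j) (![p, q] k) = 0 := by
    have h4 : ∀ z : Fin 2 → ℂ, Bg (comp T ![p, q]) z z z = 0 := by
      intro z
      rw [Bg_comp hT]
      have h5 := hpq (z 0) (z 1)
      rw [ev_aeval, aeval_frm] at h5
      have h6 : (fun i => ∑ a, z a * algebraMap ℂ ℂ ((![p, q] : Fin 2 → Fin 6 → ℂ) a i)) =
          z 0 • p + z 1 • q := by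
        funext i
        rw [Fin.sum_univ_two]
        rfl
      rw [h6]
      exact h5
    intro i j k
    have h5 := polar (comp_sym hT _) h4 (fun a => if a = i then (1 : ℂ) else 0)
      (fun a => if a = j then (1 : ℂ) else 0) (fun a => if a = k then (1 : ℂ) else 0)
    rw [← T_eq] at h5
    exact h5
  have hx0 : Bf T (fun i => t ^ 2 * (lam i : M) + t * (Q i : M) + (R i : M))
      (fun i => t ^ 2 * (lam i : M) + t * (Q i : M) + (R i : M))
      (fun i => t ^ 2 * (lam i : M) + t * (Q i : M) + (R i : M)) = 0 := by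
    rw [← aeval_frm]
    exact h1
  by_cases hind : LinearIndependent ℂ ![p, q]
  · exact core hcb hani hT hS hN hLF htr _ hx0 h2 h3 L t ht (fun i => (lam i : M))
      (fun i => (Q i : M)) (fun i => (R i : M)) (fun i => (lam i).2) (fun i => (Q i).2)
      (fun i => (R i).2) rfl p q a b hlam hpolar (Or.inl hind)
  · -- dependent vectors
    by_cases hp : p = 0
    · refine core hcb hani hT hS hN hLF htr _ hx0 h2 h3 L t ht (fun i => (lam i : M))
        (fun i => (Q i : M)) (fun i => (R i : M)) (fun i => (lam i).2) (fun i => (Q i).2)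
        (fun i => (R i).2) rfl q 0 b 0 ?_ ?_ (Or.inr rfl)
      · intro i
        rw [hlam, hp]
        simp
      · intro i j k
        have h4 : ∀ i : Fin 2, ∃ c : ℂ, (![q, 0] : Fin 2 → Fin 6 → ℂ) i =
            fun l => c * q l := by
          intro i
          fin_cases i
          · exact ⟨1, by funext l; simp⟩
          · exact ⟨0, by funext l; simp⟩
        obtain ⟨c1, hc1⟩ := h4 i
        obtain ⟨c2, hc2⟩ := h4 j
        obtain ⟨c3, hc3⟩ := h4 k
        have h5 : Bg T q q q = 0 := hpolar 1 1 1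
        rw [hc1, hc2, hc3, Bf_eq, Bg_smul1, Bg_smul2, Bg_smul3, h5]
        ring
    · rw [LinearIndependent.pair_iff' hp] at hind
      push Not at hind
      obtain ⟨c, hc⟩ := hind
      refine core hcb hani hT hS hN hLF htr _ hx0 h2 h3 L t ht (fun i => (lam i : M))
        (fun i => (Q i : M)) (fun i => (R i : M)) (fun i => (lam i).2) (fun i => (Q i).2)
        (fun i => (R i).2) rfl p 0 (a + b * algebraMap ℂ M c) 0 ?_ ?_ (Or.inr rfl)
      · intro i
        rw [hlam, ← hc]
        simp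
        ring
      · intro i j k
        have h4 : ∀ i : Fin 2, ∃ c : ℂ, (![p, 0] : Fin 2 → Fin 6 → ℂ) i =
            fun l => c * p l := by
          intro i
          fin_cases i
          · exact ⟨1, by funext l; simp⟩
          · exact ⟨0, by funext l; simp⟩
        obtain ⟨c1, hc1⟩ := h4 i
        obtain ⟨c2, hc2⟩ := h4 j
        obtain ⟨c3, hc3⟩ := h4 k
        have h5 : Bg T p p p = 0 := hpolar 0 0 0
        rw [hc1, hc2, hc3, Bf_eq, Bg_smul1, Bg_smul2, Bg_smul3, h5]
        ring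


end Pool.Agent.Y201.VD
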